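import Pool.Agent.Lib.MP_ff4e96_coG.LeadZero2

/-!
# The leading form of a packing polynomial of degree at least 3 on a rational sector

Let `F` be a packing polynomial of total degree at least `3` on the sector `I(α)`, `α > 0` rational, and let `g` be
its leading form restricted to the line `x = 1`. Then `g` has a zero `t` in the closed interval `[0, α]` which has
multiplicity at least `4`, or which is irrational and not a root of a quadratic polynomial with rational
coefficients.
-/

set_option autoImplicit false

namespace Pool.Agent.Results.MP_ff4e96_co.LeadingForm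

open Pool.Agent.Lib.MP_ff4e96_co

/-- The polynomial `g(t) = F_D(1, t)`, where `F_D` is the homogeneous component of `F` of the degree
`D = F.totalDegree` (the leading form of `F`). -/
noncomputable def leadPoly (F : MvPolynomial (Fin 2) ℝ) : Polynomial ℝ :=
  MvPolynomial.aeval ![(1 : Polynomial ℝ), Polynomial.X]
    (MvPolynomial.homogeneousComponent F.totalDegree F)

theorem result : ∀ α : ℚ, 0 < α → ∀ F : MvPolynomial (Fin 2) ℝ, IsPacking α F →
    3 ≤ F.totalDegree → ∃ t : ℝ, 0 ≤ t ∧ t ≤ α ∧ (leadPoly F).IsRoot t ∧
      (4 ≤ (leadPoly F).rootMultiplicity t ∨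
        (Irrational t ∧ ∀ a b : ℚ, t ^ 2 + b * t + a ≠ 0)) :=
  fun _ hα _ hF h3 => Pool.Agent.Lib.MP_ff4e96_coG.lead_zero2 hα hF h3

end Pool.Agent.Results.MP_ff4e96_co.LeadingForm
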