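import Pool.Agent.Lib.MP_ff4e96_co.Final

/-!
# No packing polynomial of degree 3, 4 or 5 on a rational sector

For every rational `α > 0`, a real polynomial `F` in two variables which maps the lattice points of
the sector `I(α) = {(x, y) ∈ ℕ × ℕ : y ≤ α x}` bijectively onto `ℕ` has total degree at most `2` or at
least `6`. (`α = 1` is the case of the quadrant `ℕ × ℕ`, by the linear map `(x, y) ↦ (x + y, y)`.)
-/

set_option autoImplicit false

namespace Pool.Agent.Results.MP_ff4e96_co.NoDegreeThreeFourFive

open Pool.Agent.Lib.MP_ff4e96_co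

theorem result : ∀ α : ℚ, 0 < α → ∀ F : MvPolynomial (Fin 2) ℝ, IsPacking α F →
    F.totalDegree ≤ 2 ∨ 6 ≤ F.totalDegree :=
  fun _ hα F hF => no_packing hα F hF

end Pool.Agent.Results.MP_ff4e96_co.NoDegreeThreeFourFive
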